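import Pool.Agent.Helper85.SZ.Defs
import Pool.Agent.Helper38.SB.Slopes

/-! The new coordinate of the base. -/

namespace Pool.Agent.Helper80.SZ

open MvPowerSeries Pool.Agent.Helper38.EQ Pool.Agent.Helper38.GP
open Pool.Agent.Helper85.SB Pool.Agent.Helper85.SZ

/-- The value of a series at `s = 0`, `t = 0`. -/
noncomputable def ev_h80 (d : ℕ) (K : Type) [Field K] : WS d K →+* K :=
  (constantCoeff (σ := Fin d) (R := K)).comp PowerSeries.constantCoeff

theorem isUnit_iff_h80 {d : ℕ} {K : Type} [Field K] (x : WS d K) :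
    IsUnit x ↔ ev_h80 d K x ≠ 0 := by
  rw [PowerSeries.isUnit_iff_constantCoeff, MvPowerSeries.isUnit_iff_constantCoeff,
    isUnit_iff_ne_zero]
  rfl

/-- The algebra homomorphism on `x + c y`. -/
theorem map_add_h80 {d : ℕ} {K : Type} [Field K]
    (G : MvPowerSeries (Fin (d + 2)) K →ₐ[K] WS d K) (x y : MvPowerSeries (Fin (d + 2)) K)
    (c : K) : G (x + C c * y) = G x + PowerSeries.C (C c) * G y := by
  have h1 : (C c : MvPowerSeries (Fin (d + 2)) K) = algebraMap K _ c := rfl
  have h2 : algebraMap K (WS d K) c = PowerSeries.C (C c) := by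
    rw [IsScalarTower.algebraMap_apply K (MvPowerSeries (Fin d) K) (WS d K)]
    rfl
  rw [map_add, map_mul, h1, G.commutes, h2]

theorem ev_C_h80 {d : ℕ} {K : Type} [Field K] (c : K) :
    ev_h80 d K (PowerSeries.C (C c)) = c := by
  rw [ev_h80, RingHom.comp_apply, PowerSeries.constantCoeff_C, constantCoeff_C]

theorem ev_X_h80 {d : ℕ} {K : Type} [Field K] {m : ℕ} (hm : m ≠ 0) :
    ev_h80 d K (PowerSeries.X ^ m) = 0 := by
  rw [map_pow, ev_h80, RingHom.comp_apply, PowerSeries.constantCoeff_X, map_zero, zero_pow hm]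

/-- The dichotomy: `η` is a multiple of `s ^ M`, or a power `s ^ k`, `1 ≤ k < M`, up to a unit. -/
theorem dich_h80 {d : ℕ} {K : Type} [Field K] [IsAlgClosed K] [CharZero K]
    {g : MvPowerSeries (Fin (d + 2)) K} {I : Ideal (MvPowerSeries (Fin (d + 2)) K)}
    (A : Arcs0 g I) (l : Fin A.N) :
    PowerSeries.X ^ A.M ∣ A.G l A.y ∨
      ∃ (k : ℕ) (b : WS d K), 1 ≤ k ∧ k < A.M ∧ IsUnit b ∧ A.G l A.y = PowerSeries.X ^ k * b := by
  by_contra hcon
  rw [not_or] at hcon
  obtain ⟨hM, hk⟩ := hcon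
  have : NeZero (A.M : K) := ⟨Nat.cast_ne_zero.2 A.hM⟩
  obtain ⟨ζ, hζ⟩ := HasEnoughRootsOfUnity.exists_primitiveRoot K A.M
  obtain ⟨l', hl'⟩ := A.conj ζ hζ.pow_eq_one l
  have hrot : rot ζ (A.G l A.y) = A.G l' A.y := by
    rw [← hl']
    rfl
  set η := A.G l A.y with hη
  have hX : PowerSeries.X ∣ η := A.Xy l
  have hc0 : PowerSeries.constantCoeff η = 0 := PowerSeries.X_dvd_iff.1 hX
  have hconst : PowerSeries.X ^ A.M ∣ rot ζ η - η → False := by
    intro h
    have h1 := Pool.Agent.Helper38.SB.const_of_rot A.hM hζ h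
    rw [hc0, map_zero, sub_zero] at h1
    exact hM h1
  by_cases hll : l = l'
  · apply hconst
    rw [hrot, ← hll, sub_self]
    exact dvd_zero _
  · obtain ⟨k, hk1⟩ := A.diff l l' hll
    have hkM : k < A.M := by
      by_contra hkM
      apply hconst
      rw [hrot, ← dvd_neg, neg_sub]
      exact (pow_dvd_pow _ (not_lt.1 hkM)).trans hk1.symm.dvd
    have hk0 : k ≠ 0 := by
      rintro rfl
      rw [pow_zero, associated_one_iff_isUnit, isUnit_iff_h80] at hk1
      apply hk1
      have h2 : PowerSeries.X ∣ A.G l' A.y := A.Xy l'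
      have h3 : PowerSeries.X ∣ η - A.G l' A.y := dvd_sub hX h2
      rw [PowerSeries.X_dvd_iff] at h3
      rw [ev_h80, RingHom.comp_apply, h3, map_zero]
    -- coefficients
    have hcoef : ∀ j, PowerSeries.coeff j (η - A.G l' A.y) =
        C (1 - ζ ^ j) * PowerSeries.coeff j η := by
      intro j
      rw [← hrot, map_sub, coeff_rot, map_sub, map_one]
      ring
    have hne : ∀ j, j ≠ 0 → j < A.M → (1 - ζ ^ j) ≠ 0 := by
      intro j hj hjM h
      exact hζ.pow_ne_one_of_pos_of_lt hj hjM (sub_eq_zero.1 h).symm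
    have hdvd : PowerSeries.X ^ k ∣ η := by
      rw [PowerSeries.X_pow_dvd_iff]
      intro j hj
      rcases Nat.eq_zero_or_pos j with rfl | hpos
      · rw [PowerSeries.coeff_zero_eq_constantCoeff_apply]
        exact hc0
      · have h1 := PowerSeries.X_pow_dvd_iff.1 hk1.symm.dvd j hj
        rw [hcoef] at h1
        have h2 : (C (1 - ζ ^ j) : MvPowerSeries (Fin d) K) ≠ 0 := by
          intro h3
          exact hne j hpos.ne' (hj.trans hkM) (MvPowerSeries.C_injective (by rw [h3, map_zero]))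
        exact (mul_eq_zero.1 h1).resolve_left h2
    obtain ⟨b, hb⟩ := hdvd
    apply hk
    refine ⟨k, b, Nat.pos_of_ne_zero hk0, hkM, ?_, hb⟩
    obtain ⟨u, hu⟩ := hk1.symm
    -- `X ^ k * u = η - η'`
    have h1 : PowerSeries.coeff k (η - A.G l' A.y) = PowerSeries.constantCoeff (u : WS d K) := by
      rw [← hu, PowerSeries.coeff_X_pow_mul', if_pos le_rfl, Nat.sub_self,
        PowerSeries.coeff_zero_eq_constantCoeff_apply]
    have h2 : PowerSeries.coeff k η = PowerSeries.constantCoeff b := by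
      rw [hb, PowerSeries.coeff_X_pow_mul', if_pos le_rfl, Nat.sub_self,
        PowerSeries.coeff_zero_eq_constantCoeff_apply]
    rw [hcoef, h2] at h1
    have h3 := (isUnit_iff_h80 (u : WS d K)).1 u.isUnit
    rw [isUnit_iff_h80]
    intro h4
    apply h3
    rw [ev_h80, RingHom.comp_apply, ← h1, map_mul]
    have h5 : constantCoeff (PowerSeries.constantCoeff b) = 0 := h4
    rw [h5, mul_zero]

/-- (Z2) With `η_l = G l y` (`s ∣ η_l`): either `s ^ M ∣ η_l`, or `η_l` is `s ^ k` up to a unit with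
`1 ≤ k < M` (for a primitive `ζ`, `rot ζ η_l - η_l = η_l' - η_l` is `0` or a power `s ^ e`
up to a unit; compare coefficients: `(ζ ^ j - 1) coeff j η_l`; `const_of_rot` of `Slopes.lean`). So
for all but finitely many `c ≠ 0`, `s ^ M + c η_l` is a power of `s` up to a unit which divides
`η_l`. -/
theorem exists_c {d : ℕ} {K : Type} [Field K] [IsAlgClosed K] [CharZero K]
    {g : MvPowerSeries (Fin (d + 2)) K} {I : Ideal (MvPowerSeries (Fin (d + 2)) K)}
    (A : Arcs0 g I) : ∃ c : K, c ≠ 0 ∧ ∀ l, ∃ (m : ℕ) (a b : WS d K), 1 ≤ m ∧ IsUnit a ∧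
      A.G l (A.x + C c * A.y) = PowerSeries.X ^ m * a ∧ A.G l A.y = PowerSeries.X ^ m * b := by
  classical
  -- one bad value for each arc
  have hbad : ∀ l, ∃ c₀ : K, ∀ c : K, c ≠ 0 → c ≠ c₀ → ∃ (m : ℕ) (a b : WS d K), 1 ≤ m ∧
      IsUnit a ∧ A.G l (A.x + C c * A.y) = PowerSeries.X ^ m * a ∧
      A.G l A.y = PowerSeries.X ^ m * b := by
    intro l
    rcases dich_h80 A l with ⟨b, hb⟩ | ⟨k, b, hk1, hkM, hbu, hb⟩
    · refine ⟨-(ev_h80 d K b)⁻¹, fun c hc0 hc => ⟨A.M, 1 + PowerSeries.C (C c) * b, b,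
        Nat.pos_of_ne_zero A.hM, ?_, ?_, hb⟩⟩
      · rw [isUnit_iff_h80, map_add, map_one, map_mul, ev_C_h80]
        intro h
        apply hc
        have h1 : c * ev_h80 d K b = -1 := by linear_combination h
        have h2 : ev_h80 d K b ≠ 0 := by
          intro h3
          rw [h3, mul_zero] at h1
          exact one_ne_zero (neg_eq_zero.1 h1.symm)
        field_simp
        linear_combination h1
      · rw [map_add_h80, A.Gx, hb]
        ring
    · refine ⟨0, fun c hc0 _ => ⟨k, PowerSeries.X ^ (A.M - k) + PowerSeries.C (C c) * b, b,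
        hk1, ?_, ?_, hb⟩⟩
      · rw [isUnit_iff_h80, map_add, map_mul, ev_C_h80, ev_X_h80 (by omega), zero_add]
        exact mul_ne_zero hc0 ((isUnit_iff_h80 b).1 hbu)
      · rw [map_add_h80, A.Gx, hb]
        have h1 : (PowerSeries.X : WS d K) ^ A.M = PowerSeries.X ^ k * PowerSeries.X ^ (A.M - k) := by
          rw [← pow_add, Nat.add_sub_cancel' hkM.le]
        rw [h1]
        ring
  choose c₀ hc₀ using hbad
  have hinf : ((insert (0 : K) (Finset.univ.image c₀) : Finset K) : Set K)ᶜ.Nonempty := by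
    have : Infinite K := IsAlgClosed.instInfinite
    exact (Set.toFinite _).infinite_compl.nonempty
  obtain ⟨c, hc⟩ := hinf
  rw [Set.mem_compl_iff, Finset.mem_coe, Finset.mem_insert, not_or] at hc
  exact ⟨c, hc.1, fun l => hc₀ l c hc.1 fun h =>
    hc.2 (Finset.mem_image.2 ⟨l, Finset.mem_univ _, h.symm⟩)⟩

end Pool.Agent.Helper80.SZ
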