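import Pool.Agent.Helper85.SZ.Defs
import Pool.Agent.Helper38.SC.Star
import Pool.Agent.Helper80.SP.Coord

/-! A smooth hypersurface germ is equisingular along every smooth germ of codimension one, by a
tangential projection. -/

namespace Pool.Agent.Helper80.SZ

open MvPowerSeries Pool.Agent.Helper38.EQ Pool.Agent.Helper38.GP
open Pool.Agent.Helper38.ED (LI)

section

variable {n : ℕ} {K : Type} [Field K]

private theorem X_mem_h80 (i : Fin n) :
    (X i : MvPowerSeries (Fin n) K) ∈ IsLocalRing.maximalIdeal (MvPowerSeries (Fin n) K) := by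
  rw [mem_maximalIdeal_iff_constantCoeff, constantCoeff_X]

/-- Automorphisms preserve the maximal ideal. -/
private theorem equiv_mem_h80 (τ : MvPowerSeries (Fin n) K ≃ₐ[K] MvPowerSeries (Fin n) K)
    {x : MvPowerSeries (Fin n) K} (hx : x ∈ IsLocalRing.maximalIdeal (MvPowerSeries (Fin n) K)) :
    τ x ∈ IsLocalRing.maximalIdeal (MvPowerSeries (Fin n) K) := by
  rw [IsLocalRing.mem_maximalIdeal, mem_nonunits_iff] at hx ⊢
  intro h
  apply hx
  have h2 := h.map τ.symm
  rwa [AlgEquiv.symm_apply_apply] at h2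

/-- Permutation of the coordinates with two given values. -/
private theorem exists_perm_h80 {d : ℕ} (a b : Fin (d + 2)) (hab : a ≠ b) :
    ∃ π : Equiv.Perm (Fin (d + 2)), π 0 = a ∧ π 1 = b := by
  refine ⟨Equiv.swap 0 a * Equiv.swap 1 (Equiv.swap 0 a b), ?_, ?_⟩
  · rw [Equiv.Perm.mul_apply]
    have h1 : (0 : Fin (d + 2)) ≠ 1 := by simp
    have h2 : (0 : Fin (d + 2)) ≠ Equiv.swap 0 a b := by
      intro h
      apply hab
      have h3 := congrArg (Equiv.swap 0 a) h
      rw [Equiv.swap_apply_left, Equiv.swap_apply_self] at h3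
      exact h3
    rw [Equiv.swap_apply_of_ne_of_ne h1 h2, Equiv.swap_apply_left]
  · rw [Equiv.Perm.mul_apply, Equiv.swap_apply_left, Equiv.swap_apply_self]

end

/-- The Weierstrass polynomial of the fold. -/
private noncomputable def W_h80 (n : ℕ) (K : Type) [Field K] :
    Polynomial (MvPowerSeries (Fin (n + 1)) K) :=
  Polynomial.X ^ 2 - Polynomial.C (X 0)

private theorem W_monic_h80 (n : ℕ) (K : Type) [Field K] : (W_h80 n K).Monic := by
  unfold W_h80
  exact Polynomial.monic_X_pow_sub_C _ two_ne_zero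

private theorem W_dist_h80 (n : ℕ) (K : Type) [Field K] :
    (W_h80 n K).IsDistinguishedAt (IsLocalRing.maximalIdeal (MvPowerSeries (Fin (n + 1)) K)) := by
  have h1 : (W_h80 n K).map
      (Ideal.Quotient.mk (IsLocalRing.maximalIdeal (MvPowerSeries (Fin (n + 1)) K))) =
      Polynomial.X ^ 2 := by
    unfold W_h80
    rw [Polynomial.map_sub, Polynomial.map_pow, Polynomial.map_X, Polynomial.map_C,
      Ideal.Quotient.eq_zero_iff_mem.2 (X_mem_h80 0), Polynomial.C_0, sub_zero]
  have hdeg : (W_h80 n K).natDegree = 2 := by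
    unfold W_h80
    exact Polynomial.natDegree_X_pow_sub_C
  refine ⟨⟨fun {m} hm => ?_⟩, W_monic_h80 n K⟩
  rw [hdeg] at hm
  rw [← Ideal.Quotient.eq_zero_iff_mem, ← Polynomial.coeff_map, h1, Polynomial.coeff_X_pow,
    if_neg hm.ne]

private theorem W_discr_h80 (n : ℕ) (K : Type) [Field K] :
    (W_h80 n K).discr = 4 * X 0 := by
  have hdeg : (W_h80 n K).degree = 2 := by
    unfold W_h80
    exact Polynomial.degree_X_pow_sub_C two_pos _
  rw [Polynomial.discr_of_degree_eq_two hdeg]
  unfold W_h80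
  simp [Polynomial.coeff_C]

/-- `X 0` generates the radical of the discriminant. -/
private theorem W_red_h80 (n : ℕ) (K : Type) [Field K] [CharZero K] :
    IsReducedDiscr (W_h80 n K) (X 0 : MvPowerSeries (Fin (n + 1)) K) := by
  unfold IsReducedDiscr
  have h4 : IsUnit (4 : MvPowerSeries (Fin (n + 1)) K) := by
    rw [MvPowerSeries.isUnit_iff_constantCoeff, map_ofNat, isUnit_iff_ne_zero]
    norm_num
  have h1 : Ideal.span {(W_h80 n K).discr} = Ideal.span {(X 0 : MvPowerSeries (Fin (n + 1)) K)} := by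
    rw [W_discr_h80]
    exact Ideal.span_singleton_mul_left_unit h4 _
  rw [h1]
  have hp : Prime (X 0 : MvPowerSeries (Fin (n + 1)) K) := by
    refine Pool.Agent.Helper38.ED.prime_of_notMem_sq (X_mem_h80 0) fun hmem => ?_
    have h2 := ((Pool.Agent.Helper38.ED.LIBasic1_mem_sq_iff _).1 hmem).2 0
    rw [coeff_X, if_pos rfl] at h2
    exact one_ne_zero h2
  have h2 : (Ideal.span {(X 0 : MvPowerSeries (Fin (n + 1)) K)}).IsPrime :=
    (Ideal.span_singleton_prime hp.ne_zero).2 hp
  exact h2.isRadical.radical.symm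

/-- (Z4) Complete `g, h` to coordinates `g, h, t_j` and take `z = (g + h ^ 2, t_j)`, `σ h = X`,
`σ (z i) = C (X i)`: `σ g = - (X ^ 2 - C (X 0))`, the Weierstrass polynomial is `X ^ 2 - X_0`, its
discriminant `4 X_0`, and the image of `(g, h)` is `(X_0)`. -/
theorem equi_tang {d : ℕ} {K : Type} [Field K] [IsAlgClosed K] [CharZero K]
    {g h : MvPowerSeries (Fin (d + 2)) K} (hgh : LinIndep ![g, h]) :
    Equi (Formal K) 1 (d + 2) g (Ideal.span {g, h}) := by
  classical
  set 𝔪 := IsLocalRing.maximalIdeal (MvPowerSeries (Fin (d + 2)) K) with h𝔪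
  have hg : g ∈ 𝔪 := (mem_maximalIdeal_iff_constantCoeff _).2 (hgh.1 0)
  have hh : h ∈ 𝔪 := (mem_maximalIdeal_iff_constantCoeff _).2 (hgh.1 1)
  obtain ⟨τ, j, hj, hτ⟩ := Pool.Agent.Helper38.SC.exists_coord (h := ![g, h]) hgh
  have hτ0 : τ (X (j 0)) = g := hτ 0
  have hτ1 : τ (X (j 1)) = h := hτ 1
  obtain ⟨π, hπ0, hπ1⟩ := exists_perm_h80 (j 1) (j 0) (fun h => by
    have := hj h
    exact absurd this (by decide))
  -- the new coordinates
  let y : Fin (d + 2) → MvPowerSeries (Fin (d + 2)) K := fun i =>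
    if i = 1 then g + h ^ 2 else τ (X (π i))
  have h01 : (0 : Fin (d + 2)) ≠ 1 := by simp
  have hy0 : y 0 = h := by
    change (if (0 : Fin (d + 2)) = 1 then g + h ^ 2 else τ (X (π 0))) = h
    rw [if_neg h01, hπ0, hτ1]
  have hy1 : y 1 = g + h ^ 2 := if_pos rfl
  have hyn : ∀ i, i ≠ 1 → y i = τ (X (π i)) := fun i hi => if_neg hi
  have hym : ∀ i, y i ∈ 𝔪 := by
    intro i
    by_cases hi : i = 1
    · rw [hi, hy1]
      exact Ideal.add_mem _ hg (Ideal.pow_mem_of_mem _ hh 2 two_pos)
    · rw [hyn i hi]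
      exact equiv_mem_h80 τ (X_mem_h80 _)
  have hspan : Ideal.span (Set.range y) = 𝔪 := by
    refine le_antisymm ?_ ?_
    · rw [Ideal.span_le]
      rintro _ ⟨i, rfl⟩
      exact hym i
    · have h1 : ∀ i, τ (X (π i)) ∈ Ideal.span (Set.range y) := by
        intro i
        by_cases hi : i = 1
        · rw [hi, hπ1, hτ0]
          have h2 : g = y 1 - h * y 0 := by
            rw [hy0, hy1]
            ring
          rw [h2]
          exact Ideal.sub_mem _ (Ideal.subset_span ⟨1, rfl⟩)
            (Ideal.mul_mem_left _ _ (Ideal.subset_span ⟨0, rfl⟩))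
        · rw [← hyn i hi]
          exact Ideal.subset_span ⟨i, rfl⟩
      intro x hx
      have h2 : τ.symm x ∈ 𝔪 := equiv_mem_h80 τ.symm hx
      rw [h𝔪, maximalIdeal_eq_span_X] at h2
      have h3 : 𝔪 ≤ Ideal.comap τ (Ideal.span (Set.range y)) := by
        rw [h𝔪, maximalIdeal_eq_span_X, Ideal.span_le]
        rintro _ ⟨i, rfl⟩
        have h4 := h1 (π.symm i)
        rw [Equiv.apply_symm_apply] at h4
        exact h4
      rw [← maximalIdeal_eq_span_X] at h2
      have h4 := h3 h2
      rw [Ideal.mem_comap, AlgEquiv.apply_symm_apply] at h4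
      exact h4
  have hyLI : LinIndep y := by
    obtain ⟨h0, hdet⟩ := linear_of_span_eq y hspan
    exact ⟨h0, Matrix.linearIndependent_rows_of_det_ne_zero hdet⟩
  obtain ⟨τ', hτ'⟩ := exists_algEquiv y hspan
  let σ : MvPowerSeries (Fin (d + 1 + 1)) K ≃ₐ[K] PowerSeries (MvPowerSeries (Fin (d + 1)) K) :=
    τ'.symm.trans (finSuccEquiv K (d + 1))
  have hσ : ∀ i, σ (y i) = finSuccEquiv K (d + 1) (X i) := by
    intro i
    change finSuccEquiv K (d + 1) (τ'.symm (y i)) = _
    rw [← hτ' i, AlgEquiv.symm_apply_apply]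
  have hσh : σ h = PowerSeries.X := by
    rw [← hy0, hσ 0]
    exact finSuccEquiv_X_zero
  let z : Fin (d + 1) → MvPowerSeries (Fin (d + 2)) K := fun i => y i.succ
  have hz0 : z 0 = g + h ^ 2 := hy1
  have hσz : ∀ i, σ (z i) = PowerSeries.C (X i) := fun i => by
    rw [hσ i.succ]
    exact finSuccEquiv_X_succ i
  have hσg : σ g = ((W_h80 d K : Polynomial (MvPowerSeries (Fin (d + 1)) K)) :
      PowerSeries (MvPowerSeries (Fin (d + 1)) K)) * (-1) := by
    have h1 : g = z 0 - h ^ 2 := by rw [hz0]; ring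
    rw [h1, map_sub, map_pow, hσz, hσh]
    unfold W_h80
    rw [Polynomial.coe_sub, Polynomial.coe_pow, Polynomial.coe_X, Polynomial.coe_C]
    ring
  have hgI : g ∈ Ideal.span {g, h} := Ideal.subset_span (by simp)
  have hhI : h ∈ Ideal.span {g, h} := Ideal.subset_span (by simp)
  refine ⟨hgI, z, trivial, ⟨⟨fun i => hyLI.1 i.succ, hyLI.2.comp _ (Fin.succ_injective _)⟩, ?_⟩,
    ?_, X 0, Ideal.span {X 0}, ⟨⟨σ⟩, W_h80 d K, hσz, ⟨-1, W_dist_h80 d K, isUnit_one.neg, hσg⟩,
    W_red_h80 d K, ?_⟩, X_mem_h80 0, ?_, rfl⟩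
  · -- parameters
    refine le_antisymm ?_ ?_
    · rw [(Ideal.IsMaximal.isPrime inferInstance : 𝔪.IsPrime).radical_le_iff, Ideal.span_le]
      rintro x (rfl | ⟨i, rfl⟩)
      · exact hg
      · exact hym _
    · rw [← h𝔪, ← hspan, Ideal.span_le]
      rintro _ ⟨i, rfl⟩
      refine Fin.cases ?_ (fun i => ?_) i
      · rw [hy0]
        refine ⟨2, ?_⟩
        have h1 : h ^ 2 = z 0 - g := by rw [hz0]; ring
        rw [h1]
        exact Ideal.sub_mem _ (Ideal.subset_span (Or.inr ⟨0, rfl⟩))
          (Ideal.subset_span (Or.inl rfl))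
      · exact Ideal.le_radical (Ideal.subset_span (Or.inr ⟨i, rfl⟩))
  · -- permissible
    let p : Proj (d + 1) K := ⟨σ⟩
    refine ⟨fun j => p.tr (X j), fun i => ?_, h, hhI, ?_⟩
    · rw [← p.tr_eq_lin]
      change constantCoeff (PowerSeries.coeff 1 (σ (z i))) = 0
      rw [hσz, PowerSeries.coeff_C, if_neg one_ne_zero, map_zero]
    · rw [← p.tr_eq_lin]
      change constantCoeff (PowerSeries.coeff 1 (σ h)) ≠ 0
      rw [hσh, PowerSeries.coeff_one_X, map_one]
      exact one_ne_zero
  · -- the image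
    refine le_antisymm ?_ ?_
    · rw [Ideal.span_singleton_le_iff_mem]
      change PowerSeries.C (X 0) ∈ Ideal.map σ (Ideal.span {g, h})
      rw [← hσz 0]
      refine Ideal.mem_map_of_mem _ ?_
      rw [hz0]
      exact Ideal.add_mem _ hgI (Ideal.pow_mem_of_mem _ hhI 2 two_pos)
    · intro x hx
      have hx' : PowerSeries.C x ∈ Ideal.map σ (Ideal.span {g, h}) := hx
      have h3 : Ideal.map σ (Ideal.span {g, h}) ≤
          Ideal.comap (PowerSeries.constantCoeff (R := MvPowerSeries (Fin (d + 1)) K))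
            (Ideal.span {X 0}) := by
        rw [Ideal.map_le_iff_le_comap, Ideal.span_le]
        rintro y (rfl | rfl)
        · change PowerSeries.constantCoeff (σ _) ∈
            (Ideal.span {X 0} : Ideal (MvPowerSeries (Fin (d + 1)) K))
          rw [hσg]
          unfold W_h80
          rw [Polynomial.coe_sub, Polynomial.coe_pow, Polynomial.coe_X, Polynomial.coe_C, map_mul,
            map_sub, map_pow, PowerSeries.constantCoeff_X, PowerSeries.constantCoeff_C]
          exact Ideal.mul_mem_right _ _ (Ideal.sub_mem _ (by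
            rw [zero_pow two_ne_zero]; exact Ideal.zero_mem _) (Ideal.mem_span_singleton_self _))
        · change PowerSeries.constantCoeff (σ _) ∈
            (Ideal.span {X 0} : Ideal (MvPowerSeries (Fin (d + 1)) K))
          rw [hσh, PowerSeries.constantCoeff_X]
          exact Ideal.zero_mem _
      have h4 := h3 hx'
      rw [Ideal.mem_comap, PowerSeries.constantCoeff_C] at h4
      exact h4
  · -- the critical variety is smooth
    intro hmem
    have h1 := (Pool.Agent.Helper38.ED.LIBasic1_mem_sq_iff _).1 hmem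
    have h2 := h1.2 0
    rw [coeff_X, if_pos rfl] at h2
    exact one_ne_zero h2

end Pool.Agent.Helper80.SZ
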